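import Pool.Agent.KIL.Stmts
import Pool.Agent.Helper77_LQF.JAL

/-!
# KIL, row KJA (helper58): the jet of the Lyapunov function of a kill run
-/

set_option autoImplicit false

open MeasureTheory ProbabilityTheory Function Filter

open scoped ENNReal BigOperators Topology NNReal Matrix

noncomputable section

namespace Pool.Agent.KIL.H58

open Pool.Agent.LE.QF (HJ HM gG LL dC)

variable {ι X : Type} [Fintype ι] [DecidableEq ι] [Fintype X] [DecidableEq X]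

theorem cg {q : ℝ × (ι → ℝ)} {F F' : ℝ × (ι → ℝ) → ℝ} {v v' l l' : ℝ} {g g' : ι → ℝ}
    (h : HJ F q v g l) (hF : F = F') (hv : v = v') (hg : ∀ c, g c = g' c) (hl : l = l') :
    HJ F' q v' g' l' := by
  have hg' : g = g' := funext hg
  subst hF hv hg' hl
  exact h

/-- composition with a function with known derivatives -/
theorem comp {q : ℝ × (ι → ℝ)} {F : ℝ × (ι → ℝ) → ℝ} {v l : ℝ} {g : ι → ℝ} (h : HJ F q v g l)
    (f : ℝ → ℝ) (hf : ContDiffAt ℝ 2 f v) :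
    HJ (fun r => f (F r)) q (f v) (fun c => deriv f v * g c)
      (deriv f v * l + deriv (deriv f) v / 2 * ∑ c, g c ^ 2) :=
  ((Pool.Agent.LE.QF.H77.jal ι ℝ q).2.2.2.2.1 F v l g h).2 f hf

theorem hsum {q : ℝ × (ι → ℝ)} (κ : Type) (s : Finset κ) (F : κ → ℝ × (ι → ℝ) → ℝ)
    (v l : κ → ℝ) (g : κ → ι → ℝ) (h : ∀ k ∈ s, HJ (F k) q (v k) (g k) (l k)) :
    HJ (fun r => ∑ k ∈ s, F k r) q (∑ k ∈ s, v k) (fun c => ∑ k ∈ s, g k c) (∑ k ∈ s, l k) :=
  (Pool.Agent.LE.QF.H77.jal ι ℝ q).2.2.2.2.2.1 κ s F v l g h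

theorem hadd {q : ℝ × (ι → ℝ)} {F H : ℝ × (ι → ℝ) → ℝ} {v v' l l' : ℝ} {g g' : ι → ℝ}
    (hF : HJ F q v g l) (hH : HJ H q v' g' l') :
    HJ (fun r => F r + H r) q (v + v') (fun c => g c + g' c) (l + l') :=
  ((Pool.Agent.LE.QF.H77.jal ι ℝ q).2.2.1 F H v v' l l' g g' hF hH).1

theorem hsub {q : ℝ × (ι → ℝ)} {F H : ℝ × (ι → ℝ) → ℝ} {v v' l l' : ℝ} {g g' : ι → ℝ}
    (hF : HJ F q v g l) (hH : HJ H q v' g' l') :
    HJ (fun r => F r - H r) q (v - v') (fun c => g c - g' c) (l - l') :=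
  ((Pool.Agent.LE.QF.H77.jal ι ℝ q).2.2.1 F H v v' l l' g g' hF hH).2.1

theorem hmul {q : ℝ × (ι → ℝ)} {F H : ℝ × (ι → ℝ) → ℝ} {v v' l l' : ℝ} {g g' : ι → ℝ}
    (hF : HJ F q v g l) (hH : HJ H q v' g' l') :
    HJ (fun r => F r * H r) q (v * v') (fun c => v * g' c + g c * v')
      (v * l' + l * v' + ∑ c, g c * g' c) :=
  ((Pool.Agent.LE.QF.H77.jal ι ℝ q).2.2.1 F H v v' l l' g g' hF hH).2.2

theorem kja (hKJN : KjnStmt) : KjaStmt := by
  intro ι X _ _ _ _ e q Gm kp G κ g μ o Rn θ hK heo hoR hgam hθ y m ly lm dy dm hm hy hdm hdy hlm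
    hly
  have hθ2 : ∀ v, ContDiffAt ℝ 2 θ v := fun v => hθ.contDiffAt
  have jm : HJ (fun r => ∑ c, aa (kp r.1) (Gm r) o (e c)) q m dm lm := by
    refine cg (hsum ι Finset.univ (fun c r => aa (kp r.1) (Gm r) o (e c))
      (fun c => aa κ G o (e c)) (fun c => la e κ g G μ o (e c)) (fun c c' => da e κ G o (e c) c')
      (fun c _ => hKJN ι X e q Gm kp G κ g μ o hK heo hgam (e c) (heo c))) rfl hm.symm
      (fun c => (hdm c).symm) hlm.symm
  have jr : HJ (fun r => ∑ v ∈ Rn.filter (fun v => ∀ c, e c ≠ v), θ (aa (kp r.1) (Gm r) o v)) q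
      (∑ v ∈ Rn.filter (fun v => ∀ c, e c ≠ v), θ (aa κ G o v))
      (fun c => ∑ v ∈ Rn.filter (fun v => ∀ c, e c ≠ v), deriv θ (aa κ G o v) * da e κ G o v c)
      (∑ v ∈ Rn.filter (fun v => ∀ c, e c ≠ v), (deriv θ (aa κ G o v) * la e κ g G μ o v +
        deriv (deriv θ) (aa κ G o v) / 2 * ∑ c, da e κ G o v c ^ 2)) := by
    refine hsum X _ (fun v r => θ (aa (kp r.1) (Gm r) o v)) _ _ _ (fun v hv => ?_)
    have hvo : v ≠ o := by
      rintro rfl
      exact hoR (Finset.mem_filter.1 hv).1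
    exact comp (hKJN ι X e q Gm kp G κ g μ o hK heo hgam v hvo) θ (hθ2 _)
  have jy : HJ (fun r => ym e θ Rn (kp r.1) (Gm r) o) q y dy ly :=
    cg (hadd jm jr) rfl (by rw [hy, hm]; rfl) (fun c => (hdy c).symm) hly.symm
  have hd : ∀ x : ℝ, HasDerivAt (fun x : ℝ => 3 * x - x ^ 2) (3 - 2 * x) x := by
    intro x
    have h1 := ((hasDerivAt_id x).const_mul 3).sub (hasDerivAt_pow 2 x)
    refine h1.congr_deriv ?_
    norm_num
  have hd1 : deriv (fun x : ℝ => 3 * x - x ^ 2) = fun x => 3 - 2 * x :=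
    funext fun x => (hd x).deriv
  have hd2 : deriv (fun x : ℝ => 3 - 2 * x) y = -2 := by
    have h1 := ((hasDerivAt_id y).const_mul 2).const_sub 3
    have h2 : HasDerivAt (fun x : ℝ => 3 - 2 * x) (-2) y := by
      refine h1.congr_deriv ?_
      norm_num
    exact h2.deriv
  have hc3 : ContDiffAt ℝ 2 (fun x : ℝ => 3 * x - x ^ 2) y := by fun_prop
  have j3 := comp jy (fun x : ℝ => 3 * x - x ^ 2) hc3
  have hd4 : ∀ x : ℝ, HasDerivAt (fun x : ℝ => x / 10) (1 / 10) x := by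
    intro x
    exact (hasDerivAt_id x).div_const 10
  have hd5 : deriv (fun x : ℝ => x / 10) = fun _ => 1 / 10 := funext fun x => (hd4 x).deriv
  have hc4 : ContDiffAt ℝ 2 (fun x : ℝ => x / 10) m := by fun_prop
  have j4 := comp jm (fun x : ℝ => x / 10) hc4
  refine cg (hsub j3 j4) rfl rfl (fun c => ?_) ?_
  · rw [hd1, hd5]
    ring
  · rw [hd1, hd5, hd2]
    simp only [deriv_const]
    ring

end Pool.Agent.KIL.H58
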