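import Pool.Agent.KIL.Stmts
import Pool.Agent.Helper58_KIL.KJA

/-!
# KIL, row KLJ (helper58): the functional of the last round
-/

set_option autoImplicit false

open MeasureTheory ProbabilityTheory Function Filter

open scoped ENNReal BigOperators Topology NNReal Matrix

noncomputable section

namespace Pool.Agent.KIL.H58

open Pool.Agent.LE.QF (HJ HM gG LL dC)

/-! ### algebra -/

theorem yg {x E A t : ℝ} (hx : x ^ 2 ≤ 4 * (E * A)) (hE : 0 ≤ E) (hA : 0 ≤ A) (ht : 0 < t) :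
    x ≤ t * A + E / t := by
  have h0 : 0 ≤ t * A + E / t := by positivity
  have h1 : t * A * (E / t) = E * A := by
    field_simp
  have h2 : x ^ 2 ≤ (t * A + E / t) ^ 2 := by
    nlinarith [sq_nonneg (t * A - E / t)]
  exact le_trans (le_abs_self x) (abs_le_of_sq_le_sq h2 h0)

theorem lemD {ι : Type} [Fintype ι] (A xD dd dm : ι → ℝ) (m ε ρ SE ser Er J lm : ℝ)
    (hA : ∀ c, 0 ≤ A c) (hε : 0 ≤ ε) (hε1 : ε ≤ 1 / 16) (hρ : ρ ≤ 1 / 128) (hm : 0 ≤ m)
    (hmρ : m ≤ 2 * ρ) (hx : ∀ c, xD c ^ 2 ≤ 4 * (m * (ε ^ 2 * A c)))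
    (hd : ∀ c, dd c ^ 2 ≤ 4 * ((1 + ε) * A c)) (hS : SE ≤ ε ^ 2 * ∑ c, A c) (hser : |ser| ≤ Er)
    (hJ : |J| ≤ ε * (∑ c, A c) + Er)
    (hlm : lm = SE - (∑ c, A c) + ser - m * J - (∑ c, xD c * dd c) + m * ∑ c, dd c ^ 2)
    (hdm : ∀ c, dm c = -xD c + m * dd c) :
    lm ≤ -(3 / 4) * (∑ c, A c) + 2 * Er ∧
      ∑ c, dm c ^ 2 ≤ 4 * ρ * (4 * ε ^ 2 + 16 * ρ) * ∑ c, A c := by
  have hm64 : m ≤ 1 / 64 := by linarith
  have hEr : 0 ≤ Er := le_trans (abs_nonneg _) hser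
  have hA0 : 0 ≤ ∑ c, A c := Finset.sum_nonneg fun c _ => hA c
  have hε2 : ε ^ 2 ≤ 1 / 256 := by nlinarith
  have h1 : ∀ c, -(xD c * dd c) ≤ (3 / 40) * A c := by
    intro c
    have h2 : -(xD c * dd c) ≤ 16 * xD c ^ 2 + dd c ^ 2 / 64 := by
      nlinarith [sq_nonneg (4 * xD c + dd c / 8)]
    have h3 : m * (ε ^ 2 * A c) ≤ 1 / 64 * (1 / 256 * A c) := by
      have := hA c
      gcongr
    have h4 : (1 + ε) * A c ≤ 17 / 16 * A c := by
      have := hA c
      gcongr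
      linarith
    have := hx c
    have := hd c
    have := hA c
    linarith
  have h5 : -(∑ c, xD c * dd c) ≤ (3 / 40) * ∑ c, A c := by
    rw [← Finset.sum_neg_distrib, Finset.mul_sum]
    exact Finset.sum_le_sum fun c _ => h1 c
  have h6 : ∑ c, dd c ^ 2 ≤ 17 / 4 * ∑ c, A c := by
    rw [Finset.mul_sum]
    refine Finset.sum_le_sum fun c _ => ?_
    have := hd c
    have h7 := hA c
    nlinarith
  have h6' : 0 ≤ ∑ c, dd c ^ 2 := Finset.sum_nonneg fun c _ => sq_nonneg _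
  constructor
  · have h7 : -(m * J) ≤ 1 / 64 * ((1 / 16) * (∑ c, A c) + Er) := by
      have h8 : -(m * J) ≤ m * |J| := by
        have := neg_abs_le J
        nlinarith
      have h9 : |J| ≤ (1 / 16) * (∑ c, A c) + Er := by
        refine le_trans hJ ?_
        gcongr
      have h10 : 0 ≤ |J| := abs_nonneg J
      nlinarith
    have h8 : m * ∑ c, dd c ^ 2 ≤ 1 / 64 * (17 / 4 * ∑ c, A c) := by
      gcongr
    have h9 : ser ≤ Er := le_trans (le_abs_self _) hser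
    have h10 : ε ^ 2 * ∑ c, A c ≤ 1 / 256 * ∑ c, A c := by gcongr
    rw [hlm]
    linarith
  · rw [Finset.mul_sum]
    refine Finset.sum_le_sum fun c _ => ?_
    rw [hdm]
    have h1 : (-xD c + m * dd c) ^ 2 ≤ 2 * xD c ^ 2 + 2 * (m ^ 2 * dd c ^ 2) := by
      nlinarith [sq_nonneg (xD c + m * dd c)]
    have h2 := hA c
    have hρ0 : 0 ≤ ρ := by linarith
    have h3 : m * (ε ^ 2 * A c) ≤ 2 * ρ * (ε ^ 2 * A c) := by gcongr
    have h4 : m ^ 2 ≤ (2 * ρ) ^ 2 := by gcongr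
    have h5 : m ^ 2 * dd c ^ 2 ≤ (2 * ρ) ^ 2 * (4 * ((1 + ε) * A c)) := by
      have := hd c
      gcongr
    have h6 : (1 + ε) * A c ≤ 2 * A c := by
      gcongr
      linarith
    have h7 : (2 * ρ) ^ 2 * (4 * ((1 + ε) * A c)) ≤ (2 * ρ) ^ 2 * (4 * (2 * A c)) := by gcongr
    have h8 := hx c
    have h9 : 0 ≤ ρ ^ 2 * A c := by positivity
    nlinarith

theorem lemV {ι : Type} [Fintype ι] (A x dd da ev : ι → ℝ) (av ε h t₁ erv Er J la b H : ℝ)
    (hA : ∀ c, 0 ≤ A c) (hε : 0 ≤ ε) (hε1 : ε ≤ 1 / 16) (ht : 0 < t₁) (hh : 0 ≤ h)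
    (hav : 0 ≤ av) (hx : ∀ c, x c ^ 2 ≤ 4 * (av * ev c)) (hev : ∀ c, ev c ≤ h * A c)
    (hd : ∀ c, dd c ^ 2 ≤ 4 * ((1 + ε) * A c))
    (hJ : |J| ≤ ε * (∑ c, A c) + Er) (hb : b = av + t₁ / 2) (hH : H = 2 * h / t₁ + 1)
    (hla : la = (∑ c, ev c) + erv - av * J - (∑ c, x c * dd c) + av * ∑ c, dd c ^ 2)
    (hda : ∀ c, da c = -x c + av * dd c) :
    la ≤ 12 * H * b * (∑ c, A c) + |erv| + b * Er ∧
      ∑ c, da c ^ 2 ≤ 18 * H * b ^ 2 * ∑ c, A c := by
  have hA0 : 0 ≤ ∑ c, A c := Finset.sum_nonneg fun c _ => hA c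
  have hb0 : 0 < b := by rw [hb]; linarith
  have hab : av ≤ b := by rw [hb]; linarith
  have hht : 0 ≤ 2 * h / t₁ := by positivity
  have hH1 : 1 ≤ H := by rw [hH]; linarith
  have hhb : h ≤ H * b := by
    have h1 : t₁ / 2 ≤ b := by rw [hb]; linarith
    have h2 : 2 * h / t₁ * (t₁ / 2) = h := by field_simp
    have h3 : 2 * h / t₁ * (t₁ / 2) ≤ 2 * h / t₁ * b := by gcongr
    rw [hH]
    nlinarith
  have hbH : b ≤ H * b := by nlinarith
  have hHb0 : 0 ≤ H * b := by positivity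
  -- squares
  have hx2 : ∀ c, x c ^ 2 ≤ 4 * (b * (H * b * A c)) := by
    intro c
    have h1 := hx c
    have h2 := hev c
    have h3 := hA c
    have h4 : h * A c ≤ H * b * A c := by gcongr
    have h5 : av * ev c ≤ av * (H * b * A c) := by
      apply mul_le_mul_of_nonneg_left _ hav
      linarith
    have h6 : av * (H * b * A c) ≤ b * (H * b * A c) := by
      gcongr
    linarith
  have hdd : ∀ c, dd c ^ 2 ≤ 17 / 4 * A c := by
    intro c
    have := hd c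
    have h7 := hA c
    nlinarith
  have h1 : ∀ c, -(x c * dd c) ≤ (2 + 17 / 8) * (H * b * A c) := by
    intro c
    have h2 : -(x c * dd c) ≤ x c ^ 2 / (2 * b) + b / 2 * dd c ^ 2 := by
      have h3 : x c ^ 2 / (2 * b) + b / 2 * dd c ^ 2 + x c * dd c =
          (x c + b * dd c) ^ 2 / (2 * b) := by
        field_simp
        ring
      have h4 : 0 ≤ (x c + b * dd c) ^ 2 / (2 * b) := by positivity
      linarith
    have h5 : x c ^ 2 / (2 * b) ≤ 2 * (H * b * A c) := by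
      rw [div_le_iff₀ (by positivity)]
      have := hx2 c
      nlinarith
    have h6 : b / 2 * dd c ^ 2 ≤ 17 / 8 * (H * b * A c) := by
      have h7 : b / 2 * dd c ^ 2 ≤ b / 2 * (17 / 4 * A c) := by
        have := hdd c
        gcongr
      have h8 : b * A c ≤ H * b * A c := by
        have := hA c
        gcongr
      nlinarith
    linarith
  have hHbA : 0 ≤ H * b * ∑ c, A c := by positivity
  have h2 : -(∑ c, x c * dd c) ≤ (2 + 17 / 8) * (H * b * ∑ c, A c) := by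
    rw [← Finset.sum_neg_distrib, Finset.mul_sum, Finset.mul_sum]
    exact Finset.sum_le_sum fun c _ => h1 c
  have h3 : ∑ c, ev c ≤ H * b * ∑ c, A c := by
    rw [Finset.mul_sum]
    refine Finset.sum_le_sum fun c _ => ?_
    have h4 : h * A c ≤ H * b * A c := by
      have := hA c
      gcongr
    have := hev c
    linarith
  have h4 : av * ∑ c, dd c ^ 2 ≤ 17 / 4 * (H * b * ∑ c, A c) := by
    have h5 : ∑ c, dd c ^ 2 ≤ 17 / 4 * ∑ c, A c := by
      rw [Finset.mul_sum]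
      exact Finset.sum_le_sum fun c _ => hdd c
    have h6 : av * ∑ c, dd c ^ 2 ≤ b * (17 / 4 * ∑ c, A c) := by
      have : 0 ≤ ∑ c, dd c ^ 2 := Finset.sum_nonneg fun c _ => sq_nonneg _
      gcongr
    have h7 : b * (∑ c, A c) ≤ H * b * ∑ c, A c := by gcongr
    linarith
  have h5 : -(av * J) ≤ 1 / 16 * (H * b * ∑ c, A c) + b * Er := by
    have h6 : -(av * J) ≤ av * |J| := by
      have := neg_abs_le J
      nlinarith
    have h7 : av * |J| ≤ b * (ε * (∑ c, A c) + Er) := by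
      have : 0 ≤ |J| := abs_nonneg J
      gcongr
    have h8 : b * (ε * ∑ c, A c) ≤ 1 / 16 * (H * b * ∑ c, A c) := by
      have h9 : b * (ε * ∑ c, A c) ≤ b * (1 / 16 * ∑ c, A c) := by gcongr
      have h10 : b * (∑ c, A c) ≤ H * b * ∑ c, A c := by gcongr
      linarith
    linarith
  constructor
  · have h6 : erv ≤ |erv| := le_abs_self _
    rw [hla]
    nlinarith
  · rw [Finset.mul_sum]
    refine Finset.sum_le_sum fun c _ => ?_
    rw [hda]
    have h6 : (-x c + av * dd c) ^ 2 ≤ 2 * x c ^ 2 + 2 * (av ^ 2 * dd c ^ 2) := by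
      nlinarith [sq_nonneg (x c + av * dd c)]
    have h7 := hx2 c
    have h8 : av ^ 2 * dd c ^ 2 ≤ b ^ 2 * (17 / 4 * A c) := by
      have := hdd c
      have : av ^ 2 ≤ b ^ 2 := by gcongr
      gcongr
    have h9 : b ^ 2 * A c ≤ H * b ^ 2 * A c := by
      have := hA c
      have : b ^ 2 ≤ H * b ^ 2 := by nlinarith [sq_nonneg b]
      gcongr
    nlinarith

/-- the exponent of one term -/
theorem lemF {ι : Type} [Fintype ι] (da dm : ι → ℝ) (la lm b H A lam ρ Er erv E0 E1 ε : ℝ) (j : ℕ)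
    (hj : 1 ≤ j) (hb : 0 < b) (hA : 0 ≤ A) (hρ : 0 < ρ) (hρ1 : ρ ≤ 1 / 128) (hE0 : 0 ≤ E0)
    (hE1 : 0 ≤ E1) (hH : 1 ≤ H) (hlam : lam = j / (4 * ρ))
    (hjc : (j : ℝ) * (4 * ε ^ 2 + 16 * ρ) ≤ 1 / 8) (hjH : 300 * (j : ℝ) * H * ρ ≤ 1)
    (hla : la ≤ 12 * H * b * A + |erv| + b * Er) (hda : ∑ c, da c ^ 2 ≤ 18 * H * b ^ 2 * A)
    (hlm : lm ≤ -(3 / 4) * A + 2 * Er)
    (hdm : ∑ c, dm c ^ 2 ≤ 4 * ρ * (4 * ε ^ 2 + 16 * ρ) * A)
    (hEr : Er ^ 2 ≤ 4 * (E0 * A)) (herv : (|erv| / b) ^ 2 ≤ 4 * (E1 * A)) :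
    j / b * la + j / b * ((j - 1) / b) / 2 * ∑ c, da c ^ 2 + lam * lm +
      lam ^ 2 / 2 * ∑ c, dm c ^ 2 + lam * (j / b) * ∑ c, dm c * da c ≤
      20 * j * E0 / ρ + 64 * j * ρ * E1 := by
  have hj1 : (1 : ℝ) ≤ j := by exact_mod_cast hj
  have hlam0 : 0 < lam := by rw [hlam]; positivity
  have hlρ : lam * ρ = j / 4 := by
    rw [hlam]
    field_simp
  -- the gradient of m
  have h1 : lam ^ 2 / 2 * ∑ c, dm c ^ 2 ≤ lam * A / 16 := by
    have h2 : lam ^ 2 / 2 * ∑ c, dm c ^ 2 ≤ lam ^ 2 / 2 * (4 * ρ * (4 * ε ^ 2 + 16 * ρ) * A) := by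
      gcongr
    have h3 : lam ^ 2 / 2 * (4 * ρ * (4 * ε ^ 2 + 16 * ρ) * A) =
        lam * A * ((lam * ρ) * 2 * (4 * ε ^ 2 + 16 * ρ)) := by ring
    have h4 : (lam * ρ) * 2 * (4 * ε ^ 2 + 16 * ρ) ≤ 1 / 16 := by
      rw [hlρ]
      linarith
    have h5 : lam * A * ((lam * ρ) * 2 * (4 * ε ^ 2 + 16 * ρ)) ≤ lam * A * (1 / 16) := by
      gcongr
    linarith
  -- the cross term
  have h6 : lam * (j / b) * ∑ c, dm c * da c ≤
      (j / b) ^ 2 / 2 * (∑ c, da c ^ 2) + lam ^ 2 / 2 * ∑ c, dm c ^ 2 := by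
    rw [Finset.mul_sum, Finset.mul_sum, Finset.mul_sum, ← Finset.sum_add_distrib]
    refine Finset.sum_le_sum fun c _ => ?_
    nlinarith [sq_nonneg (j / b * da c - lam * dm c)]
  -- da
  have hb' : b ≠ 0 := hb.ne'
  have h7 : (j / b) ^ 2 / 2 * (∑ c, da c ^ 2) ≤ 9 * j ^ 2 * H * A := by
    have h8 : (j / b) ^ 2 / 2 * (∑ c, da c ^ 2) ≤ (j / b) ^ 2 / 2 * (18 * H * b ^ 2 * A) := by
      gcongr
    have h9 : (j / b) ^ 2 / 2 * (18 * H * b ^ 2 * A) = 9 * j ^ 2 * H * A := by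
      field_simp
      ring
    linarith
  have h10 : j / b * ((j - 1) / b) / 2 * ∑ c, da c ^ 2 ≤ 9 * j ^ 2 * H * A := by
    have h11 : j / b * ((j - 1) / b) / 2 ≤ (j / b) ^ 2 / 2 := by
      have h12 : ((j : ℝ) - 1) / b ≤ j / b := by
        gcongr
        linarith
      have h13 : (0 : ℝ) ≤ j / b := by positivity
      nlinarith
    have h14 : 0 ≤ ∑ c, da c ^ 2 := Finset.sum_nonneg fun c _ => sq_nonneg _
    refine le_trans (mul_le_mul_of_nonneg_right h11 h14) h7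
  -- la
  have h15 : j / b * la ≤ 12 * j * H * A + j * (|erv| / b) + j * Er := by
    have h16 : j / b * la ≤ j / b * (12 * H * b * A + |erv| + b * Er) := by gcongr
    have h17 : j / b * (12 * H * b * A + |erv| + b * Er) =
        12 * j * H * A + j * (|erv| / b) + j * Er := by
      field_simp
    linarith
  -- Young
  have h18 : Er ≤ 1 / 32 * A + E0 / (1 / 32) := yg hEr hE0 hA (by norm_num)
  have h19 : Er ≤ 1 / (64 * ρ) * A + E0 / (1 / (64 * ρ)) := yg hEr hE0 hA (by positivity)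
  have h20 : |erv| / b ≤ 1 / (64 * ρ) * A + E1 / (1 / (64 * ρ)) := yg herv hE1 hA (by positivity)
  have h21 : lam * lm ≤ lam * (-(3 / 4) * A + 2 * Er) := by gcongr
  have h22 : lam * (2 * Er) ≤ lam * A / 16 + 64 * lam * E0 := by
    have : lam * (2 * Er) ≤ lam * (2 * (1 / 32 * A + E0 / (1 / 32))) := by gcongr
    have h23 : lam * (2 * (1 / 32 * A + E0 / (1 / 32))) = lam * A / 16 + 64 * lam * E0 := by
      ring
    linarith
  have hj64 : (j : ℝ) * (1 / (64 * ρ) * A) = lam * A / 16 := by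
    rw [hlam]
    field_simp
    ring
  have h24 : (j : ℝ) * Er ≤ lam * A / 16 + 64 * j * ρ * E0 := by
    have : (j : ℝ) * Er ≤ j * (1 / (64 * ρ) * A + E0 / (1 / (64 * ρ))) := by gcongr
    have h25 : (j : ℝ) * (1 / (64 * ρ) * A + E0 / (1 / (64 * ρ))) =
        j * (1 / (64 * ρ) * A) + 64 * j * ρ * E0 := by
      field_simp
    rw [h25, hj64] at this
    exact this
  have h26 : (j : ℝ) * (|erv| / b) ≤ lam * A / 16 + 64 * j * ρ * E1 := by
    have : (j : ℝ) * (|erv| / b) ≤ j * (1 / (64 * ρ) * A + E1 / (1 / (64 * ρ))) := by gcongr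
    have h25 : (j : ℝ) * (1 / (64 * ρ) * A + E1 / (1 / (64 * ρ))) =
        j * (1 / (64 * ρ) * A) + 64 * j * ρ * E1 := by
      field_simp
    rw [h25, hj64] at this
    exact this
  -- sum of the main terms
  have h27 : 12 * (j : ℝ) * H * A + 9 * j ^ 2 * H * A + 9 * j ^ 2 * H * A ≤ 2 / 5 * (lam * A) := by
    have h28 : 12 * (j : ℝ) * H * A ≤ 12 * j ^ 2 * H * A := by
      have : (j : ℝ) ≤ j ^ 2 := by nlinarith
      gcongr
    have h29 : 30 * (j : ℝ) ^ 2 * H ≤ 2 / 5 * lam := by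
      have h30 : 30 * (j : ℝ) ^ 2 * H * ρ ≤ 2 / 5 * lam * ρ := by
        have h31 : 2 / 5 * lam * ρ = j / 10 := by
          rw [mul_assoc, hlρ]
          ring
        rw [h31]
        have h32 : 30 * (j : ℝ) ^ 2 * H * ρ = j / 10 * (300 * j * H * ρ) := by ring
        rw [h32]
        have : (0 : ℝ) ≤ j / 10 := by positivity
        nlinarith
      exact le_of_mul_le_mul_right h30 hρ
    have h33 : 30 * (j : ℝ) ^ 2 * H * A ≤ 2 / 5 * lam * A := by gcongr
    linarith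
  have hlA : 0 ≤ lam * A := by positivity
  -- the errors
  have h34 : 64 * lam * E0 = 16 * j * E0 / ρ := by
    rw [hlam]
    field_simp
    ring
  have h35 : 64 * (j : ℝ) * ρ * E0 ≤ 4 * j * E0 / ρ := by
    rw [le_div_iff₀ hρ]
    have h36 : 64 * (j : ℝ) * ρ * E0 * ρ = j * E0 * (64 * ρ ^ 2) := by ring
    have h37 : 64 * ρ ^ 2 ≤ 4 := by nlinarith
    rw [h36]
    have : 0 ≤ (j : ℝ) * E0 := by positivity
    nlinarith
  have h38 : 16 * (j : ℝ) * E0 / ρ + 4 * j * E0 / ρ = 20 * j * E0 / ρ := by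
    ring
  nlinarith

theorem lemF1 {ι : Type} [Fintype ι] (dm : ι → ℝ) (lm A lam ρ Er E0 E1 ε : ℝ) (j : ℕ)
    (hA : 0 ≤ A) (hρ : 0 < ρ) (hE0 : 0 ≤ E0) (hj : 1 ≤ j)
    (hE1 : 0 ≤ E1) (hlam : lam = j / (4 * ρ))
    (hjc : (j : ℝ) * (4 * ε ^ 2 + 16 * ρ) ≤ 1 / 8)
    (hlm : lm ≤ -(3 / 4) * A + 2 * Er)
    (hdm : ∑ c, dm c ^ 2 ≤ 4 * ρ * (4 * ε ^ 2 + 16 * ρ) * A)
    (hEr : Er ^ 2 ≤ 4 * (E0 * A)) :
    lam * lm + lam ^ 2 / 2 * ∑ c, dm c ^ 2 ≤ 20 * j * E0 / ρ + 64 * j * ρ * E1 := by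
  have hj1 : (1 : ℝ) ≤ j := by exact_mod_cast hj
  have hlam0 : 0 < lam := by rw [hlam]; positivity
  have hlρ : lam * ρ = j / 4 := by
    rw [hlam]
    field_simp
  have h1 : lam ^ 2 / 2 * ∑ c, dm c ^ 2 ≤ lam * A / 16 := by
    have h2 : lam ^ 2 / 2 * ∑ c, dm c ^ 2 ≤ lam ^ 2 / 2 * (4 * ρ * (4 * ε ^ 2 + 16 * ρ) * A) := by
      gcongr
    have h3 : lam ^ 2 / 2 * (4 * ρ * (4 * ε ^ 2 + 16 * ρ) * A) =
        lam * A * ((lam * ρ) * 2 * (4 * ε ^ 2 + 16 * ρ)) := by ring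
    have h4 : (lam * ρ) * 2 * (4 * ε ^ 2 + 16 * ρ) ≤ 1 / 16 := by
      rw [hlρ]
      linarith
    have h5 : lam * A * ((lam * ρ) * 2 * (4 * ε ^ 2 + 16 * ρ)) ≤ lam * A * (1 / 16) := by
      gcongr
    linarith
  have h18 : Er ≤ 1 / 32 * A + E0 / (1 / 32) := yg hEr hE0 hA (by norm_num)
  have h21 : lam * lm ≤ lam * (-(3 / 4) * A + 2 * Er) := by gcongr
  have h22 : lam * (2 * Er) ≤ lam * A / 16 + 64 * lam * E0 := by
    have : lam * (2 * Er) ≤ lam * (2 * (1 / 32 * A + E0 / (1 / 32))) := by gcongr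
    have h23 : lam * (2 * (1 / 32 * A + E0 / (1 / 32))) = lam * A / 16 + 64 * lam * E0 := by
      ring
    linarith
  have hlA : 0 ≤ lam * A := by positivity
  have h34 : 64 * lam * E0 = 16 * j * E0 / ρ := by
    rw [hlam]
    field_simp
    ring
  have h35 : 16 * (j : ℝ) * E0 / ρ ≤ 20 * j * E0 / ρ := by
    gcongr
    norm_num
  have h36 : 0 ≤ 64 * (j : ℝ) * ρ * E1 := by positivity
  nlinarith

/-! ### the functions -/

theorem dexp1 (lam ρ : ℝ) :
    deriv (fun x : ℝ => Real.exp (lam * (x - 2 * ρ))) =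
      fun x => lam * Real.exp (lam * (x - 2 * ρ)) := by
  funext x
  have h1 : HasDerivAt (fun x : ℝ => lam * (x - 2 * ρ)) lam x := by
    have := ((hasDerivAt_id x).sub_const (2 * ρ)).const_mul lam
    refine this.congr_deriv ?_
    ring
  rw [h1.exp.deriv]
  ring

theorem dexp2 (lam : ℝ) :
    deriv (fun x : ℝ => Real.exp (lam * x)) = fun x => lam * Real.exp (lam * x) := by
  funext x
  have h1 : HasDerivAt (fun x : ℝ => lam * x) lam x := by
    have := (hasDerivAt_id x).const_mul lam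
    refine this.congr_deriv ?_
    ring
  rw [h1.exp.deriv]
  ring

theorem dpow (t c : ℝ) (j : ℕ) :
    deriv (fun x : ℝ => ((x + t) / c) ^ j) =
      fun x => (j : ℝ) * ((x + t) / c) ^ (j - 1) * (1 / c) := by
  funext x
  have h1 : HasDerivAt (fun x : ℝ => (x + t) / c) (1 / c) x :=
    ((hasDerivAt_id x).add_const t).div_const c
  exact (h1.pow j).deriv

theorem dpow2 (t c : ℝ) (j : ℕ) (x : ℝ) :
    deriv (fun x : ℝ => (j : ℝ) * ((x + t) / c) ^ (j - 1) * (1 / c)) x =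
      (j : ℝ) * (((j - 1 : ℕ) : ℝ) * ((x + t) / c) ^ (j - 1 - 1) * (1 / c)) * (1 / c) := by
  have h1 : HasDerivAt (fun x : ℝ => (x + t) / c) (1 / c) x :=
    ((hasDerivAt_id x).add_const t).div_const c
  have h2 := ((h1.pow (j - 1)).const_mul (j : ℝ)).mul_const (1 / c)
  exact h2.deriv

theorem powb {b c : ℝ} (hb : b ≠ 0) (hc : c ≠ 0) (n : ℕ) :
    (n : ℝ) * (b / c) ^ (n - 1) * (1 / c) = (b / c) ^ n * (n / b) := by
  cases n with
  | zero => simp
  | succ k =>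
    rw [Nat.add_sub_cancel, pow_succ]
    field_simp

/-! ### the network -/

variable {ι X : Type} [Fintype ι] [DecidableEq ι] [Fintype X] [DecidableEq X]

omit [Fintype ι] [DecidableEq ι] in
theorem ee_le (e : ι → X) (G : Matrix X X ℂ) (κ g : X → ℝ) (o v : X) (c : ι) (κs kI g₀ : ℝ)
    (h0 : 0 ≤ κ v) (h1 : κ v ≤ κs) (h2 : ‖G v (e c)‖ ^ 2 ≤ kI) (hg0 : 0 < g₀)
    (hg : g₀ ≤ g (e c)) (hgam : 0 < gam κ G o) :
    ee e κ G o v c ≤ κs * kI / g₀ * AA e κ g G o c := by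
  unfold ee AA
  rw [norm_mul, mul_pow, ← mul_div_assoc]
  refine div_le_div_of_nonneg_right ?_ hgam.le
  have hκs : 0 ≤ κs := le_trans h0 h1
  have hkI : 0 ≤ kI := le_trans (sq_nonneg _) h2
  have h3 : κ v * (‖G v (e c)‖ ^ 2 * ‖G (e c) o‖ ^ 2) ≤ κs * (kI * ‖G (e c) o‖ ^ 2) := by gcongr
  have h4 : κs * kI / g₀ * (g₀ * ‖G (e c) o‖ ^ 2) ≤ κs * kI / g₀ * (g (e c) * ‖G (e c) o‖ ^ 2) := by
    gcongr
  have h5 : κs * kI / g₀ * (g₀ * ‖G (e c) o‖ ^ 2) = κs * (kI * ‖G (e c) o‖ ^ 2) := by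
    field_simp
  linarith

omit [DecidableEq ι] in
theorem er_le (e : ι → X) (G : Matrix X X ℂ) (κ : X → ℝ) (μ : ι → ℂ) (o v : X) (δ : ℝ)
    (h0 : 0 ≤ κ v) (hμ : ∀ c, ‖μ c‖ ≤ δ) (hgam : 0 < gam κ G o) :
    |er e κ G μ o v| ^ 2 ≤
      4 * (δ ^ 2 * (Fintype.card ι * ∑ c, aa κ G o v * ee e κ G o v c)) := by
  have h1 : |er e κ G μ o v| ≤
      2 * δ * ∑ c, κ v * ‖G v o‖ * ‖G v (e c) * G (e c) o‖ / gam κ G o := by
    unfold er
    rw [abs_div, abs_of_pos hgam, abs_mul, abs_mul, abs_of_nonneg h0, abs_of_nonneg (by norm_num :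
      (0 : ℝ) ≤ 2)]
    have h2 : |((starRingEnd ℂ) (G v o) * ∑ c, G v (e c) * μ c * G (e c) o).re| ≤
        ‖G v o‖ * ∑ c, ‖G v (e c) * G (e c) o‖ * δ := by
      refine le_trans (Complex.abs_re_le_norm _) ?_
      rw [norm_mul, RCLike.norm_conj]
      gcongr
      refine le_trans (norm_sum_le _ _) (Finset.sum_le_sum fun c _ => ?_)
      have h3 : G v (e c) * μ c * G (e c) o = G v (e c) * G (e c) o * μ c := by ring
      rw [h3, norm_mul]
      exact mul_le_mul_of_nonneg_left (hμ c) (norm_nonneg _)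
    have h3 : 2 * κ v * |((starRingEnd ℂ) (G v o) * ∑ c, G v (e c) * μ c * G (e c) o).re| ≤
        2 * κ v * (‖G v o‖ * ∑ c, ‖G v (e c) * G (e c) o‖ * δ) := by gcongr
    have h4 : 2 * δ * ∑ c, κ v * ‖G v o‖ * ‖G v (e c) * G (e c) o‖ / gam κ G o =
        2 * κ v * (‖G v o‖ * ∑ c, ‖G v (e c) * G (e c) o‖ * δ) / gam κ G o := by
      rw [← Finset.sum_mul, ← Finset.sum_div, ← Finset.mul_sum]
      ring
    rw [h4]
    gcongr
  have h5 : ∀ c, (κ v * ‖G v o‖ * ‖G v (e c) * G (e c) o‖ / gam κ G o) ^ 2 =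
      aa κ G o v * ee e κ G o v c := by
    intro c
    unfold aa ee nn
    ring
  have h6 : (∑ c, κ v * ‖G v o‖ * ‖G v (e c) * G (e c) o‖ / gam κ G o) ^ 2 ≤
      Fintype.card ι * ∑ c, aa κ G o v * ee e κ G o v c := by
    have h7 := sq_sum_le_card_mul_sum_sq (s := (Finset.univ : Finset ι))
      (f := fun c => κ v * ‖G v o‖ * ‖G v (e c) * G (e c) o‖ / gam κ G o)
    simp only [h5] at h7
    exact h7
  have h8 : 0 ≤ ∑ c, κ v * ‖G v o‖ * ‖G v (e c) * G (e c) o‖ / gam κ G o :=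
    Finset.sum_nonneg fun c _ => by positivity
  calc |er e κ G μ o v| ^ 2 ≤
      (2 * δ * ∑ c, κ v * ‖G v o‖ * ‖G v (e c) * G (e c) o‖ / gam κ G o) ^ 2 := by gcongr
    _ = 4 * (δ ^ 2 * (∑ c, κ v * ‖G v o‖ * ‖G v (e c) * G (e c) o‖ / gam κ G o) ^ 2) := by ring
    _ ≤ _ := by gcongr

theorem klj (hKJN : KjnStmt) (hKNB : KnbStmt) : KljStmt := by
  intro ι X _ _ _ _ e q Gm kp G κ g μ o Rn B κs g₀ δ Lc kI t₁ ρ ε h lam j hK hG hgam hBR heB hkI
    hkI0 hj ht₁ ht₁1 hρ hε hε1 hδε hκL hh hlam hjc hjH hmρ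
  have hj1 : (1 : ℝ) ≤ j := by exact_mod_cast hj
  have hρ1 : ρ ≤ 1 / 128 := by nlinarith [sq_nonneg ε]
  have hoR : o ∉ Rn := hG.hR.2
  have heo : ∀ c, e c ≠ o := fun c hc => hoR (hc ▸ hG.hR.1 c)
  have hvo : ∀ v ∈ B, v ≠ o := by
    rintro v hv rfl
    exact hoR (hBR hv)
  obtain ⟨n1, n2, n3, n4, n5, n6, n7⟩ := hKNB ι X e G κ g μ Rn o κs g₀ δ Lc hK.inj hG hgam
  have hg₀ := hG.hg.1
  -- names
  set m : ℝ := ∑ c, aa κ G o (e c) with hm
  set A : ℝ := ∑ c, AA e κ g G o c with hA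
  set Er : ℝ := ∑ v ∈ Finset.univ.erase o, |er e κ G μ o v| with hEr
  set E0 : ℝ := Real.sqrt (Fintype.card ι * Real.sqrt (Fintype.card ι * Lc)) * δ ^ 2 / g₀ with hE0
  set E1 : ℝ := 2 * δ ^ 2 * Fintype.card ι * h / t₁ with hE1
  set J : ℝ := (∑ w ∈ Finset.univ.erase o, ((∑ c, ee e κ G o w c) + er e κ G μ o w)) - A with hJ
  set dm : ι → ℝ := fun c => ∑ c', da e κ G o (e c') c with hdm
  set lm : ℝ := ∑ c', la e κ g G μ o (e c') with hlm
  have hEr0 : 0 ≤ Er := Finset.sum_nonneg fun v _ => abs_nonneg _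
  have hA0 : 0 ≤ A := Finset.sum_nonneg fun c _ => n3 c
  have hE00 : 0 ≤ E0 := by positivity
  have hm0 : 0 ≤ m := Finset.sum_nonneg fun c _ => n1 _
  have hEr2 : Er ^ 2 ≤ 4 * (E0 * A) := by
    refine le_trans n7 (le_of_eq ?_)
    rw [hE0]
    ring
  have hJb : |J| ≤ ε * A + Er := by
    have h1 : J = (∑ c, ((∑ w ∈ Finset.univ.erase o, ee e κ G o w c) - AA e κ g G o c)) +
        ∑ w ∈ Finset.univ.erase o, er e κ G μ o w := by
      rw [hJ, Finset.sum_add_distrib, Finset.sum_comm, Finset.sum_sub_distrib]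
      ring
    rw [h1]
    refine le_trans (abs_add_le _ _) (add_le_add ?_ (Finset.abs_sum_le_sum_abs _ _))
    refine le_trans (Finset.abs_sum_le_sum_abs _ _) ?_
    rw [hA, Finset.mul_sum]
    refine Finset.sum_le_sum fun c _ => le_trans (n5 c) ?_
    exact mul_le_mul_of_nonneg_right hδε (n3 c)
  have hdd : ∀ c, dd e κ G o c ^ 2 ≤ 4 * ((1 + ε) * AA e κ g G o c) := by
    intro c
    have h1 : |dd e κ G o c| ≤ ∑ v ∈ Finset.univ.erase o,
        2 * Real.sqrt (aa κ G o v) * Real.sqrt (ee e κ G o v c) := by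
      refine le_trans (Finset.abs_sum_le_sum_abs _ _) (Finset.sum_le_sum fun v _ => ?_)
      have h2 := (n4 v c).2
      have h3 : 0 ≤ 2 * Real.sqrt (aa κ G o v) * Real.sqrt (ee e κ G o v c) := by positivity
      refine abs_le_of_sq_le_sq ?_ h3
      rw [mul_pow, mul_pow, Real.sq_sqrt (n1 v), Real.sq_sqrt (n4 v c).1]
      linarith
    have h4 : (∑ v ∈ Finset.univ.erase o,
        2 * Real.sqrt (aa κ G o v) * Real.sqrt (ee e κ G o v c)) ^ 2 ≤
        (∑ v ∈ Finset.univ.erase o, (2 * Real.sqrt (aa κ G o v)) ^ 2) *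
          ∑ v ∈ Finset.univ.erase o, Real.sqrt (ee e κ G o v c) ^ 2 :=
      Finset.sum_mul_sq_le_sq_mul_sq _ _ _
    have h5 : ∑ v ∈ Finset.univ.erase o, (2 * Real.sqrt (aa κ G o v)) ^ 2 = 4 := by
      rw [← mul_one (4 : ℝ), ← n2, Finset.mul_sum]
      refine Finset.sum_congr rfl fun v _ => ?_
      rw [mul_pow, Real.sq_sqrt (n1 v)]
      norm_num
    have h6 : ∑ v ∈ Finset.univ.erase o, Real.sqrt (ee e κ G o v c) ^ 2 =
        ∑ v ∈ Finset.univ.erase o, ee e κ G o v c :=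
      Finset.sum_congr rfl fun v _ => Real.sq_sqrt (n4 v c).1
    have h7 : ∑ v ∈ Finset.univ.erase o, ee e κ G o v c ≤ (1 + ε) * AA e κ g G o c := by
      have h8 := le_trans (le_abs_self _) (n5 c)
      have h9 := mul_le_mul_of_nonneg_right hδε (n3 c)
      linarith
    have h10 : dd e κ G o c ^ 2 = |dd e κ G o c| ^ 2 := (sq_abs _).symm
    rw [h10]
    have h11 : |dd e κ G o c| ^ 2 ≤ (∑ v ∈ Finset.univ.erase o,
        2 * Real.sqrt (aa κ G o v) * Real.sqrt (ee e κ G o v c)) ^ 2 := by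
      have := abs_nonneg (dd e κ G o c)
      gcongr
    rw [h5, h6] at h4
    linarith
  -- the killed sites
  have hD : ∀ c, ∑ c', ee e κ G o (e c') c ≤ ε ^ 2 * AA e κ g G o c := by
    intro c
    have h1 := n6 (Finset.univ.image e) (Fintype.card ι) (by
      intro v hv
      obtain ⟨c', -, rfl⟩ := Finset.mem_image.1 hv
      exact hG.hR.1 c') (by
      rw [Finset.card_image_of_injective _ hK.inj, Finset.card_univ]) c
    rw [Finset.sum_image fun x _ y _ hxy => hK.inj hxy] at h1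
    exact le_trans h1 (mul_le_mul_of_nonneg_right hκL (n3 c))
  have hxD : ∀ c, (∑ c', xx e κ G o (e c') c) ^ 2 ≤ 4 * (m * (ε ^ 2 * AA e κ g G o c)) := by
    intro c
    have h1 : |∑ c', xx e κ G o (e c') c| ≤ ∑ c',
        2 * Real.sqrt (aa κ G o (e c')) * Real.sqrt (ee e κ G o (e c') c) := by
      refine le_trans (Finset.abs_sum_le_sum_abs _ _) (Finset.sum_le_sum fun v _ => ?_)
      have h2 := (n4 (e v) c).2
      have h3 : 0 ≤ 2 * Real.sqrt (aa κ G o (e v)) * Real.sqrt (ee e κ G o (e v) c) := by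
        positivity
      refine abs_le_of_sq_le_sq ?_ h3
      rw [mul_pow, mul_pow, Real.sq_sqrt (n1 _), Real.sq_sqrt (n4 _ c).1]
      linarith
    have h4 : (∑ c', 2 * Real.sqrt (aa κ G o (e c')) * Real.sqrt (ee e κ G o (e c') c)) ^ 2 ≤
        (∑ c', (2 * Real.sqrt (aa κ G o (e c'))) ^ 2) *
          ∑ c', Real.sqrt (ee e κ G o (e c') c) ^ 2 :=
      Finset.sum_mul_sq_le_sq_mul_sq _ _ _
    have h5 : ∑ c', (2 * Real.sqrt (aa κ G o (e c'))) ^ 2 = 4 * m := by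
      rw [hm, Finset.mul_sum]
      refine Finset.sum_congr rfl fun v _ => ?_
      rw [mul_pow, Real.sq_sqrt (n1 _)]
      norm_num
    have h6 : ∑ c', Real.sqrt (ee e κ G o (e c') c) ^ 2 = ∑ c', ee e κ G o (e c') c :=
      Finset.sum_congr rfl fun v _ => Real.sq_sqrt (n4 _ c).1
    have h10 : (∑ c', xx e κ G o (e c') c) ^ 2 = |∑ c', xx e κ G o (e c') c| ^ 2 :=
      (sq_abs _).symm
    rw [h10]
    have h11 : |∑ c', xx e κ G o (e c') c| ^ 2 ≤
        (∑ c', 2 * Real.sqrt (aa κ G o (e c')) * Real.sqrt (ee e κ G o (e c') c)) ^ 2 := by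
      have := abs_nonneg (∑ c', xx e κ G o (e c') c)
      gcongr
    rw [h5, h6] at h4
    have h12 : 4 * m * ∑ c', ee e κ G o (e c') c ≤ 4 * m * (ε ^ 2 * AA e κ g G o c) := by
      have := hD c
      gcongr
    linarith
  have hdmc : ∀ c, dm c = -(∑ c', xx e κ G o (e c') c) + m * dd e κ G o c := by
    intro c
    rw [hdm, hm]
    simp only [da]
    rw [Finset.sum_add_distrib, Finset.sum_neg_distrib, Finset.sum_mul]
  have hser : |∑ c', er e κ G μ o (e c')| ≤ Er := by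
    refine le_trans (Finset.abs_sum_le_sum_abs _ _) ?_
    have h1 : ∑ c', |er e κ G μ o (e c')| =
        ∑ v ∈ Finset.univ.image e, |er e κ G μ o v| := by
      rw [Finset.sum_image fun x _ y _ hxy => hK.inj hxy]
    rw [h1]
    refine Finset.sum_le_sum_of_subset_of_nonneg ?_ fun v _ _ => abs_nonneg _
    intro v hv
    obtain ⟨c', -, rfl⟩ := Finset.mem_image.1 hv
    exact Finset.mem_erase.2 ⟨heo c', Finset.mem_univ _⟩
  have hlme : lm = (∑ c, ∑ c', ee e κ G o (e c') c) - A + (∑ c', er e κ G μ o (e c')) - m * J -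
      (∑ c, (∑ c', xx e κ G o (e c') c) * dd e κ G o c) + m * ∑ c, dd e κ G o c ^ 2 := by
    have h1 : ∑ c', ∑ c, (if e c = e c' then AA e κ g G o c else 0) = A := by
      rw [hA]
      refine Finset.sum_congr rfl fun c' _ => ?_
      rw [Finset.sum_eq_single c']
      · rw [if_pos rfl]
      · intro c _ hc
        rw [if_neg fun hc' => hc (hK.inj hc')]
      · intro hc
        exact absurd (Finset.mem_univ _) hc
    have h2 : ∑ c, (∑ c', xx e κ G o (e c') c) * dd e κ G o c =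
        ∑ c', ∑ c, xx e κ G o (e c') c * dd e κ G o c := by
      rw [Finset.sum_comm]
      refine Finset.sum_congr rfl fun c _ => ?_
      rw [Finset.sum_mul]
    rw [hlm, h2, ← h1, hm, Finset.sum_mul, Finset.sum_mul, Finset.sum_comm (γ := ι) (f := fun c c' => ee e κ G o (e c') c)]
    simp only [la, ← hA, ← hJ]
    rw [← Finset.sum_sub_distrib, ← Finset.sum_add_distrib, ← Finset.sum_sub_distrib,
      ← Finset.sum_sub_distrib, ← Finset.sum_add_distrib]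
  obtain ⟨hlmb, hdmb⟩ := lemD (fun c => AA e κ g G o c) (fun c => ∑ c', xx e κ G o (e c') c)
    (fun c => dd e κ G o c) dm m ε ρ (∑ c, ∑ c', ee e κ G o (e c') c)
    (∑ c', er e κ G μ o (e c')) Er J lm n3 hε hε1 hρ1 hm0 hmρ hxD hdd (by
      rw [Finset.mul_sum]
      exact Finset.sum_le_sum fun c _ => hD c) hser hJb hlme hdmc
  have hE10 : 0 ≤ E1 := by
    rcases isEmpty_or_nonempty ι with hi | hi
    · rw [hE1, Fintype.card_eq_zero]
      simp
    · obtain ⟨c⟩ := hi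
      have h1 : 0 ≤ κs := le_trans (hG.hκ.1 (e c)) (hG.hκ.2 _ (hG.hR.1 c))
      have h2 : 0 ≤ h := by rw [hh]; positivity
      positivity
  -- one site of `B`
  have hV : ∀ v ∈ B, j / (aa κ G o v + t₁ / 2) * la e κ g G μ o v +
      j / (aa κ G o v + t₁ / 2) * ((j - 1) / (aa κ G o v + t₁ / 2)) / 2 *
        ∑ c, da e κ G o v c ^ 2 + lam * lm + lam ^ 2 / 2 * ∑ c, dm c ^ 2 +
      lam * (j / (aa κ G o v + t₁ / 2)) * ∑ c, dm c * da e κ G o v c ≤
      20 * j * E0 / ρ + 64 * j * ρ * E1 := by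
    intro v hv
    have hκv := hG.hκ.1 v
    have hκs : 0 ≤ κs := le_trans hκv (hG.hκ.2 v (hBR hv))
    have hh0 : 0 ≤ h := by rw [hh]; positivity
    have hev : ∀ c, ee e κ G o v c ≤ h * AA e κ g G o c := by
      intro c
      rw [hh]
      exact ee_le e G κ g o v c κs kI g₀ hκv (hG.hκ.2 v (hBR hv)) (hkI v hv c) hg₀ (hG.hg.2 c)
        hgam
    have hlav : la e κ g G μ o v = (∑ c, ee e κ G o v c) + er e κ G μ o v -
        aa κ G o v * J - (∑ c, xx e κ G o v c * dd e κ G o c) +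
        aa κ G o v * ∑ c, dd e κ G o c ^ 2 := by
      have h1 : ∑ c, (if e c = v then AA e κ g G o c else 0) = 0 := by
        refine Finset.sum_eq_zero fun c _ => ?_
        rw [if_neg]
        rintro rfl
        exact heB c hv
      unfold la
      rw [h1, hJ, hA]
      ring
    obtain ⟨g1, g2⟩ := lemV (fun c => AA e κ g G o c) (fun c => xx e κ G o v c)
      (fun c => dd e κ G o c) (fun c => da e κ G o v c) (fun c => ee e κ G o v c) (aa κ G o v) ε h
      t₁ (er e κ G μ o v) Er J (la e κ g G μ o v) (aa κ G o v + t₁ / 2) (2 * h / t₁ + 1) n3 hε hε1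
      ht₁ hh0 (n1 v) (fun c => (n4 v c).2) hev hdd hJb rfl rfl hlav (fun c => rfl)
    have hb0 : 0 < aa κ G o v + t₁ / 2 := by
      have := n1 v
      linarith
    have herv : (|er e κ G μ o v| / (aa κ G o v + t₁ / 2)) ^ 2 ≤ 4 * (E1 * A) := by
      rw [div_pow, div_le_iff₀ (by positivity)]
      refine le_trans (er_le e G κ μ o v δ hκv (fun c => (hG.hμ c).1) hgam) ?_
      have h1 : ∑ c, aa κ G o v * ee e κ G o v c ≤ aa κ G o v * (h * A) := by
        rw [hA, Finset.mul_sum, Finset.mul_sum]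
        refine Finset.sum_le_sum fun c _ => ?_
        exact mul_le_mul_of_nonneg_left (hev c) (n1 v)
      have h2 : aa κ G o v ≤ 2 / t₁ * (aa κ G o v + t₁ / 2) ^ 2 := by
        have h3 : 2 / t₁ * (aa κ G o v + t₁ / 2) ^ 2 =
            aa κ G o v + (2 / t₁ * aa κ G o v ^ 2 + aa κ G o v + t₁ / 2) := by
          field_simp
          ring
        have := n1 v
        rw [h3]
        have : 0 ≤ 2 / t₁ * aa κ G o v ^ 2 := by positivity
        linarith
      have h4 : 4 * (δ ^ 2 * (Fintype.card ι * ∑ c, aa κ G o v * ee e κ G o v c)) ≤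
          4 * (δ ^ 2 * (Fintype.card ι * (aa κ G o v * (h * A)))) := by gcongr
      have h5 : 4 * (δ ^ 2 * (Fintype.card ι * (aa κ G o v * (h * A)))) ≤
          4 * (δ ^ 2 * (Fintype.card ι * (2 / t₁ * (aa κ G o v + t₁ / 2) ^ 2 * (h * A)))) := by
        gcongr
      have h6 : 4 * (δ ^ 2 * (Fintype.card ι * (2 / t₁ * (aa κ G o v + t₁ / 2) ^ 2 * (h * A)))) =
          4 * (E1 * A) * (aa κ G o v + t₁ / 2) ^ 2 := by
        rw [hE1]
        ring
      linarith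
    exact lemF (fun c => da e κ G o v c) dm (la e κ g G μ o v) lm (aa κ G o v + t₁ / 2)
      (2 * h / t₁ + 1) A lam ρ Er (er e κ G μ o v) E0 E1 ε j hj hb0 hA0 hρ hρ1 hE00 hE10
      (by
        have : 0 ≤ 2 * h / t₁ := by positivity
        linarith) hlam hjc hjH g1 g2 hlmb hdmb hEr2 herv
  have hM : lam * lm + lam ^ 2 / 2 * ∑ c, dm c ^ 2 ≤ 20 * j * E0 / ρ + 64 * j * ρ * E1 :=
    lemF1 dm lm A lam ρ Er E0 E1 ε j hA0 hρ hE00 hj hE10 hlam hjc hlmb hdmb hEr2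
  have hKc : 20 * j * E0 / ρ + 64 * j * ρ * E1 =
      20 * j * δ ^ 2 * Real.sqrt (Fintype.card ι * Real.sqrt (Fintype.card ι * Lc)) /
          (ρ * g₀) + 128 * j * ρ * δ ^ 2 * Fintype.card ι * h / t₁ := by
    rw [hE0, hE1]
    field_simp
    ring
  -- the jets
  have jm : HJ (fun r => ∑ c, aa (kp r.1) (Gm r) o (e c)) q m dm lm :=
    hsum ι Finset.univ (fun c r => aa (kp r.1) (Gm r) o (e c))
      (fun c => aa κ G o (e c)) (fun c => la e κ g G μ o (e c)) (fun c c' => da e κ G o (e c) c')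
      (fun c _ => hKJN ι X e q Gm kp G κ g μ o hK heo hgam (e c) (heo c))
  have j1 := comp jm (fun x : ℝ => Real.exp (lam * (x - 2 * ρ))) (by fun_prop)
  have j2 := comp jm (fun x : ℝ => Real.exp (lam * x)) (by fun_prop)
  have jv : ∀ v ∈ B, _ := fun v hv =>
    comp (hKJN ι X e q Gm kp G κ g μ o hK heo hgam v (hvo v hv))
      (fun x : ℝ => ((x + t₁ / 2) / (5 * t₁ / 2)) ^ j) (by fun_prop)
  have js := hsum X B _ _ _ _ (fun v hv => hmul j2 (jv v hv))
  refine ⟨_, _, cg (hadd j1 js) ?_ ?_ (fun c => rfl) rfl, ?_⟩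
  · funext r
    unfold uL
    rw [Finset.mul_sum B]
  · unfold uL
    rw [Finset.mul_sum B]
  · rw [← hKc]
    unfold uL
    rw [← hm, Finset.mul_sum B, mul_add, Finset.mul_sum B]
    refine add_le_add ?_ (Finset.sum_le_sum fun v hv => ?_)
    · rw [dexp1]
      have hd2 : deriv (fun x => lam * Real.exp (lam * (x - 2 * ρ))) m =
          lam * (lam * Real.exp (lam * (m - 2 * ρ))) := by
        rw [deriv_const_mul_field, dexp1]
      rw [hd2]
      have h1 : 0 < Real.exp (lam * (m - 2 * ρ)) := Real.exp_pos _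
      calc _ = (lam * lm + lam ^ 2 / 2 * ∑ c, dm c ^ 2) * Real.exp (lam * (m - 2 * ρ)) := by ring
        _ ≤ _ := mul_le_mul_of_nonneg_right hM h1.le
    · have hb0 : 0 < aa κ G o v + t₁ / 2 := by
        have := n1 v
        linarith
      have hc0 : (5 * t₁ / 2) ≠ 0 := by positivity
      have hd2 : deriv (fun x => lam * Real.exp (lam * x)) m =
          lam * (lam * Real.exp (lam * m)) := by
        rw [deriv_const_mul_field, dexp2]
      have hp1 := powb hb0.ne' hc0 j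
      have hp2 : (j : ℝ) * (((j - 1 : ℕ) : ℝ) * ((aa κ G o v + t₁ / 2) / (5 * t₁ / 2)) ^ (j - 1 - 1)
          * (1 / (5 * t₁ / 2))) * (1 / (5 * t₁ / 2)) =
          ((aa κ G o v + t₁ / 2) / (5 * t₁ / 2)) ^ j * (j / (aa κ G o v + t₁ / 2)) *
            ((j - 1) / (aa κ G o v + t₁ / 2)) := by
        have h2 := powb hb0.ne' hc0 (j - 1)
        rw [h2, ← hp1, Nat.cast_sub hj, Nat.cast_one]
        ring
      rw [dexp2, hd2, dpow, dpow2]
      simp only []
      rw [hp1, hp2]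
      have h1 : 0 < Real.exp (lam * m) * ((aa κ G o v + t₁ / 2) / (5 * t₁ / 2)) ^ j := by
        positivity
      have h3 : ∑ c, lam * Real.exp (lam * m) * dm c *
          (((aa κ G o v + t₁ / 2) / (5 * t₁ / 2)) ^ j * (j / (aa κ G o v + t₁ / 2)) *
            da e κ G o v c) =
          lam * (j / (aa κ G o v + t₁ / 2)) * (∑ c, dm c * da e κ G o v c) *
            (Real.exp (lam * m) * ((aa κ G o v + t₁ / 2) / (5 * t₁ / 2)) ^ j) := by
        rw [Finset.mul_sum Finset.univ (fun c => dm c * da e κ G o v c)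
          (lam * (j / (aa κ G o v + t₁ / 2))), Finset.sum_mul]
        refine Finset.sum_congr rfl fun c _ => ?_
        ring
      rw [h3]
      calc _ = (j / (aa κ G o v + t₁ / 2) * la e κ g G μ o v +
      j / (aa κ G o v + t₁ / 2) * ((j - 1) / (aa κ G o v + t₁ / 2)) / 2 *
        ∑ c, da e κ G o v c ^ 2 + lam * lm + lam ^ 2 / 2 * ∑ c, dm c ^ 2 +
      lam * (j / (aa κ G o v + t₁ / 2)) * ∑ c, dm c * da e κ G o v c) *
            (Real.exp (lam * m) * ((aa κ G o v + t₁ / 2) / (5 * t₁ / 2)) ^ j) := by ring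
        _ ≤ _ := mul_le_mul_of_nonneg_right (hV v hv) h1.le

end Pool.Agent.KIL.H58
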